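import Pool.Agent.V11221.BilI

/-!
# MP_fd4af6_gt, Q1: every convex curve is a Cauchy limit of billiard tables

The plane is `ℂ`, maps `S¹ = ℝ/ℤ → ℝ²` are `1`-periodic maps `ℝ → ℂ`.
-/

namespace Pool.Agent.Results.MP_fd4af6_gt.ConvexCurvesAreCauchyLimits

open MeasureTheory Set Filter Topology
open scoped ENNReal NNReal ContDiff

/-- The signed area of the parallelogram spanned by the plane vectors `v`, `w`;
it is nonnegative iff `w` lies in the closed half plane to the left of `v`. -/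
def cross (v w : ℂ) : ℝ := v.re * w.im - v.im * w.re

/-- A billiard table: a smooth counterclockwise arc-length parametrization (period `1`, so the
boundary has length `1`) of the boundary of a compact convex body `K`, with positive curvature.
The marked point is `γ 0`. -/
structure IsBilliardTable (γ : ℝ → ℂ) : Prop where
  smooth : ContDiff ℝ ∞ γ
  periodic : ∀ t, γ (t + 1) = γ t
  injective : ∀ s ∈ Ico (0:ℝ) 1, ∀ t ∈ Ico (0:ℝ) 1, γ s = γ t → s = t
  unit_speed : ∀ t, ‖deriv γ t‖ = 1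
  curvature_pos : ∀ t, 0 < cross (deriv γ t) (deriv (deriv γ) t)
  body : ∃ K : Set ℂ, Convex ℝ K ∧ IsCompact K ∧ (interior K).Nonempty ∧
    frontier K = range γ ∧ ∀ t, ∀ w ∈ K, 0 ≤ cross (deriv γ t) (w - γ t)

/-- A smooth homotopy `(H s)_{s ∈ [0,1]}` through billiard tables from `α` to `β`. -/
structure IsHomotopy (α β : ℝ → ℂ) (H : ℝ → ℝ → ℂ) : Prop where
  smooth : ContDiffOn ℝ ∞ (fun p : ℝ × ℝ => H p.1 p.2) (Icc (0:ℝ) 1 ×ˢ univ)
  table : ∀ s ∈ Icc (0:ℝ) 1, IsBilliardTable (H s)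
  left : H 0 = α
  right : H 1 = β

/-- The length of a homotopy: `∫_0^1 max_q ‖∂_s H(s, q)‖ ds`. -/
noncomputable def length (H : ℝ → ℝ → ℂ) : ℝ≥0∞ :=
  ∫⁻ s in Icc (0:ℝ) 1, ⨆ q : ℝ, ‖derivWithin (fun s' => H s' q) (Icc (0:ℝ) 1) s‖ₑ

/-- The geometric distance `d_B` (infimum of lengths, `⊤` if there is no homotopy). -/
noncomputable def dB (α β : ℝ → ℂ) : ℝ≥0∞ :=
  ⨅ (H : ℝ → ℝ → ℂ) (_ : IsHomotopy α β H), length H

/-- `C` is a simple closed curve of length `1`, parametrized counterclockwise by arc length, which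
bounds a convex set `K`: the arc `C|[a,b]` has length `b - a`, the boundary of `K` is the image of
`C`, and `K` lies to the left of the tangent at every point where `C` is differentiable. -/
structure IsConvexCurve (C : ℝ → ℂ) : Prop where
  periodic : ∀ t, C (t + 1) = C t
  injective : ∀ s ∈ Ico (0:ℝ) 1, ∀ t ∈ Ico (0:ℝ) 1, C s = C t → s = t
  arclength : ∀ a b, a ≤ b → eVariationOn C (Icc a b) = ENNReal.ofReal (b - a)
  bounds : ∃ K : Set ℂ, Convex ℝ K ∧ IsCompact K ∧ (interior K).Nonempty ∧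
    frontier K = range C ∧ ∀ t, DifferentiableAt ℝ C t → ∀ w ∈ K, 0 ≤ cross (deriv C t) (w - C t)

open Pool.Agent.V11221.Bil in
lemma isBilliardTable_curve {q : ℝ → ℝ} (h : Table q) (z : ℂ) : IsBilliardTable (curve z q) where
  smooth := curve_contDiff h z
  periodic := curve_per h z
  injective := curve_inj h z
  unit_speed := by
    intro t
    rw [deriv_curve h z]
    exact norm_ex _
  curvature_pos := curve_curv h z
  body := by
    obtain ⟨h1, h2, h3, h4⟩ := body_facts h z
    refine ⟨bodyOf z q, h1, h2, h3, h4, ?_⟩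
    intro t w hw
    rw [deriv_curve h z]
    exact hw t

open Pool.Agent.V11221.Bil in
lemma dB_le {q0 q1 : ℝ → ℝ} (h0 : Table q0) (h1 : Table q1) (z : ℂ) {c : ℝ}
    (hc : ∀ s ∈ Icc (0:ℝ) 1, |deriv σ s| ≤ c) :
    dB (curve z q0) (curve z q1) ≤ ENNReal.ofReal (c * ∫ x in (0:ℝ)..(2 * Real.pi), |q1 x - q0 x|) := by
  have hpi := Real.pi_pos
  have hN : 0 ≤ ∫ x in (0:ℝ)..(2 * Real.pi), |q1 x - q0 x| :=
    intervalIntegral.integral_nonneg (by positivity) (fun x _ => abs_nonneg _)
  have hH : IsHomotopy (curve z q0) (curve z q1) (Hom z q0 q1) :=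
    ⟨(Hom_contDiff z h0 h1).contDiffOn, fun s _ => isBilliardTable_curve (table_qs h0 h1 s) z,
      Hom_zero z, Hom_one z⟩
  refine (iInf₂_le (Hom z q0 q1) hH).trans ?_
  unfold length
  calc ∫⁻ s in Icc (0:ℝ) 1, ⨆ t : ℝ, ‖derivWithin (fun s' => Hom z q0 q1 s' t) (Icc (0:ℝ) 1) s‖ₑ
      ≤ ∫⁻ _ in Icc (0:ℝ) 1, ENNReal.ofReal (c * ∫ x in (0:ℝ)..(2 * Real.pi), |q1 x - q0 x|) := by
        apply setLIntegral_mono' measurableSet_Icc
        intro s hs
        apply iSup_le
        intro t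
        have hd := hasDerivAt_Hom z h0 h1 s t
        have e : derivWithin (fun s' => Hom z q0 q1 s' t) (Icc (0:ℝ) 1) s =
            deriv (fun s' => Hom z q0 q1 s' t) s := by
          rw [hd.deriv]
          exact hd.hasDerivWithinAt.derivWithin (uniqueDiffOn_Icc one_pos s hs)
        rw [e, ← ofReal_norm]
        apply ENNReal.ofReal_le_ofReal
        exact (deriv_Hom_bound z h0 h1 s t).trans (mul_le_mul_of_nonneg_right (hc s hs) hN)
    _ = _ := by
        rw [setLIntegral_const, Real.volume_Icc]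
        simp

/-- **Q1 has a positive answer.**  Every curve `C` as in the problem is the `C⁰`-limit of a sequence
of billiard tables which is Cauchy for the geometric distance `d_B`. -/
theorem result (C : ℝ → ℂ) (hC : IsConvexCurve C) :
    ∃ α : ℕ → ℝ → ℂ, (∀ n, IsBilliardTable (α n)) ∧
      (∀ ε : ℝ≥0∞, 0 < ε → ∃ N : ℕ, ∀ m ≥ N, ∀ n ≥ N, dB (α m) (α n) < ε) ∧
      TendstoUniformly α C atTop := by
  have hpi := Real.pi_pos
  obtain ⟨K, hK1, hK2, hK3, hK4, hK5⟩ := hC.bounds
  have hlip := Pool.Agent.V11221.Bil.lip_of_var hC.arclength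
  have hunit := Pool.Agent.V11221.Bil.unit_of_var hC.arclength
  have hcore : Pool.Agent.V11221.Bil.Core C K :=
    ⟨hC.periodic, hC.injective, hlip, hunit, hK1, hK2, hK4, hK5⟩
  obtain ⟨Θ, hΘm, hΘp, hΘd⟩ := hcore.mono_angle hK3
  obtain ⟨Q, hp⟩ := Pool.Agent.V11221.Bil.exists_Q hΘm hΘp
  have hCint : ∀ t, C t = C 0 + ∫ u in (0:ℝ)..t, Pool.Agent.V11221.Bil.ex (Θ u) := by
    intro t
    have h1 := Pool.Agent.V11221.Bil.ftc_lip hlip 0 t
    have h2 : ∫ u in (0:ℝ)..t, deriv C u = ∫ u in (0:ℝ)..t, Pool.Agent.V11221.Bil.ex (Θ u) := by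
      apply intervalIntegral.integral_congr_ae
      filter_upwards [hΘd] with u hu _
      exact hu
    rw [← h2, h1]; ring
  have hclosed : ∫ u in (0:ℝ)..1, Pool.Agent.V11221.Bil.ex (Θ u) = 0 := by
    have h1 := hCint 1
    have h2 := hC.periodic 0
    rw [zero_add] at h2
    rw [h2] at h1
    linear_combination -h1
  have hcl := Pool.Agent.V11221.Bil.closed_of_closed hp hclosed
  have happ : ∀ n : ℕ, ∃ q, Pool.Agent.V11221.Bil.Table q ∧ (∀ x, |q x - Q x| < 2) ∧
      ∫ x in (0:ℝ)..(2 * Real.pi), |q x - Q x| ≤ 1 / ((n:ℝ) + 1) :=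
    fun n => Pool.Agent.V11221.Bil.approx hp.monoQ hp.perQ hcl (by positivity)
  choose q hq hq2 hqI using happ
  obtain ⟨c, hc0, hc⟩ := Pool.Agent.V11221.Bil.exists_σ_bound
  refine ⟨fun n => Pool.Agent.V11221.Bil.curve (C 0) (q n), fun n => isBilliardTable_curve (hq n) _, ?_, ?_⟩
  · -- Cauchy
    have hbound : ∀ m n : ℕ, ∫ x in (0:ℝ)..(2 * Real.pi), |q n x - q m x| ≤
        1 / ((m:ℝ) + 1) + 1 / ((n:ℝ) + 1) := by
      intro m n
      have i1 := Pool.Agent.V11221.Bil.diff_integrable hp.monoQ (hq n) 0 (2 * Real.pi)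
      have i2 := Pool.Agent.V11221.Bil.diff_integrable hp.monoQ (hq m) 0 (2 * Real.pi)
      calc ∫ x in (0:ℝ)..(2 * Real.pi), |q n x - q m x|
          ≤ ∫ x in (0:ℝ)..(2 * Real.pi), (|q n x - Q x| + |q m x - Q x|) := by
            apply intervalIntegral.integral_mono_on (by positivity)
            · exact (((hq n).cont.sub (hq m).cont).abs).intervalIntegrable _ _
            · exact i1.add i2
            · intro x _
              have : q n x - q m x = (q n x - Q x) - (q m x - Q x) := by ring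
              rw [this]
              exact abs_sub _ _
        _ = (∫ x in (0:ℝ)..(2 * Real.pi), |q n x - Q x|) + ∫ x in (0:ℝ)..(2 * Real.pi), |q m x - Q x| :=
            intervalIntegral.integral_add i1 i2
        _ ≤ 1 / ((n:ℝ) + 1) + 1 / ((m:ℝ) + 1) := add_le_add (hqI n) (hqI m)
        _ = _ := by ring
    intro ε hε
    have hlim : Tendsto (fun n : ℕ => ENNReal.ofReal (c * (2 / ((n:ℝ) + 1)))) atTop (𝓝 0) := by
      have h1 : Tendsto (fun n : ℕ => c * (2 / ((n:ℝ) + 1))) atTop (𝓝 (c * 0)) := by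
        apply Tendsto.const_mul
        have := (tendsto_const_div_atTop_nhds_zero_nat (2:ℝ)).comp (tendsto_add_atTop_nat 1)
        refine this.congr (fun n => ?_)
        simp
      rw [mul_zero] at h1
      have h2 := ENNReal.tendsto_ofReal h1
      rwa [ENNReal.ofReal_zero] at h2
    have hev := hlim.eventually (gt_mem_nhds hε)
    obtain ⟨N, hN⟩ := eventually_atTop.mp hev
    refine ⟨N, fun m hm n hn => ?_⟩
    refine lt_of_le_of_lt (dB_le (hq m) (hq n) (C 0) hc) (lt_of_le_of_lt ?_ (hN N (le_refl N)))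
    apply ENNReal.ofReal_le_ofReal
    apply mul_le_mul_of_nonneg_left _ hc0.le
    refine (hbound m n).trans ?_
    have hmN : (N:ℝ) ≤ m := by exact_mod_cast hm
    have hnN : (N:ℝ) ≤ n := by exact_mod_cast hn
    have e1 : 1 / ((m:ℝ) + 1) ≤ 1 / ((N:ℝ) + 1) := by
      apply one_div_le_one_div_of_le (by positivity); linarith
    have e2 : 1 / ((n:ℝ) + 1) ≤ 1 / ((N:ℝ) + 1) := by
      apply one_div_le_one_div_of_le (by positivity); linarith
    calc _ ≤ 1 / ((N:ℝ) + 1) + 1 / ((N:ℝ) + 1) := add_le_add e1 e2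
      _ = _ := by ring
  · -- uniform convergence
    have hunif : ∀ n t, ‖Pool.Agent.V11221.Bil.curve (C 0) (q n) t - C t‖ ≤ 6 / ((n:ℝ) + 1) := by
      intro n t
      have hper : Function.Periodic (fun t => Pool.Agent.V11221.Bil.curve (C 0) (q n) t - C t) 1 := by
        intro t
        simp only
        rw [Pool.Agent.V11221.Bil.curve_per (hq n), hC.periodic]
      obtain ⟨y, hy, hty⟩ := hper.exists_mem_Ico₀ one_pos t
      rw [hty, hCint y]
      refine (Pool.Agent.V11221.Bil.compare hp (hq n) (hq2 n) (C 0) hy.1 hy.2.le).trans ?_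
      calc 6 * ∫ x in (0:ℝ)..(2 * Real.pi), |q n x - Q x| ≤ 6 * (1 / ((n:ℝ) + 1)) := by
            apply mul_le_mul_of_nonneg_left (hqI n) (by norm_num)
        _ = _ := by ring
    rw [Metric.tendstoUniformly_iff]
    intro ε hε
    have hlim : Tendsto (fun n : ℕ => 6 / ((n:ℝ) + 1)) atTop (𝓝 0) := by
      have := (tendsto_const_div_atTop_nhds_zero_nat (6:ℝ)).comp (tendsto_add_atTop_nat 1)
      refine this.congr (fun n => ?_)
      simp
    filter_upwards [hlim.eventually (gt_mem_nhds hε)] with n hn t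
    rw [dist_comm, dist_eq_norm]
    exact lt_of_le_of_lt (hunif n t) hn

end Pool.Agent.Results.MP_fd4af6_gt.ConvexCurvesAreCauchyLimits
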